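import Pool.Agent.X296.Enr.Iso
import Pool.Agent.X296.Enr.Bridge

/-!
# Existential formulas given by Enriques surfaces with a triquadratic double cover (helper296)

Let `F` be a polynomial of tridegree `(2,2,2)` over a number field `K` which is invariant under
the simultaneous change of the signs of `X (0,1)`, `X (1,1)`, `X (2,1)`: a linear combination with
coefficients `c k` of the 14 invariant monomials of tridegree `(2,2,2)`.  The sign change is an
involution of the surface `Y ⊂ P¹ × P¹ × P¹` given by `F = 0`.  It has no fixed points on `Y` if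
and only if the coefficients `c k` of the 8 corner monomials (`k i ≠ 1` for all `i`) are not zero.
The quotient `X` of `Y` by this involution (an Enriques surface if `Y` is smooth) is embedded in
`P¹³` by the 14 invariant monomials `z k`; its equations are `z k * z l = z m * z n` for
`k + l = m + n`, and `∑ c k * z k = 0`.

We consider the sets of the values of rational functions at the `K`-rational points of the products
of finitely many cones over such surfaces and of an affine space (in particular of the products of
affine pieces `z l = 1` of such surfaces), and the finite unions of these sets: in each completion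
of `K` they have only finitely many isolated points.  So such a set is never an infinite set which
is discrete in one of the completions; in particular it is not the set of the integers.
-/

set_option autoImplicit false

namespace Pool.Agent.Results.MP_28f2cb_lc.EnriquesSurfaces

open MvPolynomial

universe v

/-- The indices of the monomials of tridegree `(2,2,2)` which are invariant under the sign
change. -/
abbrev Idx : Type := {k : Fin 3 → Fin 3 // Even ((k 0 : ℕ) + k 1 + k 2)}

/-- The equation `F` of the covering surface `Y`. -/
noncomputable def coverForm {K : Type} [Field K] (c : Idx → K) :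
    MvPolynomial (Fin 3 × Fin 2) K :=
  ∑ k : Idx, C (c k) * ∏ i : Fin 3, (X (i, 0) ^ (2 - (k.1 i : ℕ)) * X (i, 1) ^ (k.1 i : ℕ))

/-- The hypotheses. -/
structure Admissible {K : Type} [Field K] (c : Idx → K) : Prop where
  /-- the sign change has no fixed points on `Y` -/
  free : ∀ k : Idx, (∀ i, k.1 i ≠ 1) → c k ≠ 0
  /-- `Y` is irreducible over the algebraic closure -/
  irreducible : Irreducible (map (algebraMap K (AlgebraicClosure K)) (coverForm c))
  /-- no fibre of the projections to two of the factors lies on `Y` -/
  noFibre : ∀ (i : Fin 3) (p : Fin 3 → Fin 2 → AlgebraicClosure K), (∀ j, p j ≠ 0) →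
    ∃ w : Fin 2 → AlgebraicClosure K,
      aeval (fun q : Fin 3 × Fin 2 => Function.update p i w q.1 q.2) (coverForm c) ≠ 0
  /-- `Y` has only finitely many singular points -/
  isolated : ∃ S : Set (Fin 3 → Fin 2 → AlgebraicClosure K), S.Finite ∧
    ∀ p : Fin 3 → Fin 2 → AlgebraicClosure K, (∀ i, p i ≠ 0) →
      (∀ q : Fin 3 × Fin 2,
        aeval (fun r : Fin 3 × Fin 2 => p r.1 r.2) (pderiv q (coverForm c)) = 0) →
      ∃ s ∈ S, ∀ i, ∃ t : AlgebraicClosure K, p i = t • s i

/-- The homogeneous coordinates of the rational points of the surface `X ⊂ P¹³`. -/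
def OnSurface {K : Type} [Field K] (c z : Idx → K) : Prop :=
  z ≠ 0 ∧ (∀ k l m n : Idx, (∀ i, (k.1 i : ℕ) + l.1 i = m.1 i + n.1 i) →
    z k * z l = z m * z n) ∧ ∑ k, c k * z k = 0

/-- The set of the values of `p / q` at the rational points of the product of the cones over the
surfaces and of an affine space. -/
def values {K : Type} [Field K] {ι κ : Type} (c : ι → Idx → K)
    (p q : MvPolynomial ((ι × Idx) ⊕ κ) K) : Set K :=
  {a | ∃ (z : ι → Idx → K) (u : κ → K), (∀ j, OnSurface (c j) (z j)) ∧
    eval (Sum.elim (fun r => z r.1 r.2) u) q ≠ 0 ∧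
    a = eval (Sum.elim (fun r => z r.1 r.2) u) p / eval (Sum.elim (fun r => z r.1 r.2) u) q}

/-- The points of `D` which are isolated in the topology of `L`. -/
def isolatedPoints {K : Type} [Field K] {L : Type v} [NontriviallyNormedField L] (σ : K →+* L)
    (D : Set K) : Set K :=
  {a ∈ D | ∃ U ∈ nhds (σ a), ∀ b ∈ D, σ b ∈ U → b = a}

theorem result (K : Type) [Field K] [NumberField K] (α : Type) [Finite α] (ι κ : α → Type)
    [∀ a, Finite (ι a)] [∀ a, Finite (κ a)] (c : ∀ a, ι a → Idx → K)
    (hc : ∀ a j, Admissible (c a j)) (p q : ∀ a, MvPolynomial ((ι a × Idx) ⊕ κ a) K)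
    (D : Set K) (hD : D = ⋃ a, values (c a) (p a) (q a)) :
    -- finitely many isolated points in every completion
    (∀ (L : Type v) [NontriviallyNormedField L] [CompleteSpace L] (σ : K →+* L), DenseRange σ →
      (isolatedPoints σ D).Finite) ∧
    -- in particular the set is not infinite and discrete in a completion
    (∀ (L : Type v) [NontriviallyNormedField L] [CompleteSpace L] (σ : K →+* L), DenseRange σ →
      D.Infinite → isolatedPoints σ D ≠ D) ∧
    -- and it is not the set of the integers
    D ≠ Set.range ((↑) : ℤ → K) := by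
  have hadm : ∀ a j, (∀ k : X296.Enr.I, (∀ i, k.1 i ≠ 1) → c a j k ≠ 0) ∧
      X296.Enr.Adm (W279.Tri.form (X296.Enr.arr 1 (c a j))) := by
    intro a j
    refine ⟨(hc a j).free, ?_⟩
    have h1 : coverForm (c a j) = W279.Tri.form (X296.Enr.arr 1 (c a j)) :=
      X296.Enr.form_eq (c a j)
    rw [← h1]
    exact ⟨(hc a j).irreducible, (hc a j).noFibre, (hc a j).isolated⟩
  have main : ∀ {L : Type v} [NontriviallyNormedField L] [CompleteSpace L] (σ : K →+* L),
      DenseRange σ → (isolatedPoints σ D).Finite := by
    intro L _ _ σ hσ
    refine (Set.finite_iUnion fun a => X296.Enr.isolated_values (fun j => (hadm a j).1)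
      (fun j => (hadm a j).2) (p a) (q a) (D := values (c a) (p a) (q a)) rfl L σ hσ).subset ?_
    rintro x ⟨hx, U, hU, h⟩
    rw [hD] at hx
    obtain ⟨a, ha⟩ := Set.mem_iUnion.1 hx
    refine Set.mem_iUnion.2 ⟨a, ha, U, hU, fun b hb hbU => h b ?_ hbU⟩
    rw [hD]
    exact Set.mem_iUnion.2 ⟨a, hb⟩
  have main0 : ∀ {L : Type} [NontriviallyNormedField L] [CompleteSpace L] (σ : K →+* L),
      DenseRange σ → (isolatedPoints σ D).Finite := by
    intro L _ _ σ hσ
    refine (Set.finite_iUnion fun a => X296.Enr.isolated_values (fun j => (hadm a j).1)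
      (fun j => (hadm a j).2) (p a) (q a) (D := values (c a) (p a) (q a)) rfl L σ hσ).subset ?_
    rintro x ⟨hx, U, hU, h⟩
    rw [hD] at hx
    obtain ⟨a, ha⟩ := Set.mem_iUnion.1 hx
    refine Set.mem_iUnion.2 ⟨a, ha, U, hU, fun b hb hbU => h b ?_ hbU⟩
    rw [hD]
    exact Set.mem_iUnion.2 ⟨a, hb⟩
  refine ⟨fun L _ _ σ hσ => main σ hσ, fun L _ _ σ hσ hinf h => ?_, fun hZ => ?_⟩
  · have := main σ hσ
    rw [h] at this
    exact hinf this
  · let w : NumberField.InfinitePlace K := Classical.arbitrary _
    have hnorm : ∀ n : ℤ, ‖((n : K) : w.Completion)‖ = |(n : ℝ)| := by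
      intro n
      rw [NumberField.InfinitePlace.Completion.norm_coe]
      rw [← NumberField.InfinitePlace.norm_embedding_eq]
      simp
    let _ : NontriviallyNormedField w.Completion :=
      NontriviallyNormedField.ofNormNeOne ⟨(((2 : ℤ) : K) : w.Completion), by
        rw [← norm_ne_zero_iff, hnorm]; norm_num, by rw [hnorm]; norm_num⟩
    have hfin := main0 (L := w.Completion) (algebraMap K w.Completion) (by
      have h := NumberField.InfinitePlace.Completion.denseRange_coe w
      refine h.mono ?_
      rintro _ ⟨x, rfl⟩
      exact ⟨WithAbs.equiv w.1 x, rfl⟩)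
    have hall : isolatedPoints (algebraMap K w.Completion) D = D := by
      refine Set.Subset.antisymm (fun x hx => hx.1) fun x hx => ⟨hx, ?_⟩
      refine ⟨Metric.ball (algebraMap K w.Completion x) 1, Metric.ball_mem_nhds _ one_pos,
        fun b hb hbU => ?_⟩
      rw [hZ] at hx hb
      obtain ⟨m, rfl⟩ := hx
      obtain ⟨n, rfl⟩ := hb
      rw [Metric.mem_ball, dist_eq_norm] at hbU
      have h1 : algebraMap K w.Completion (n : K) - algebraMap K w.Completion (m : K) =
          (((n - m : ℤ) : K) : w.Completion) := by
        rw [← map_sub, ← Int.cast_sub]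
        rfl
      rw [h1, hnorm, ← Int.cast_abs] at hbU
      have h2 : |n - m| < 1 := by exact_mod_cast hbU
      have h3 : n - m = 0 := Int.abs_lt_one_iff.1 h2
      have h4 : n = m := by omega
      rw [h4]
    rw [hall, hZ] at hfin
    exact Set.infinite_range_of_injective Int.cast_injective hfin

end Pool.Agent.Results.MP_28f2cb_lc.EnriquesSurfaces
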