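import Pool.Agent.W463.H10.Fixed

/-!
# Solvability over `ℚ` is `NP`-hard for equations in five variables, and for quartic equations in nine variables

The theorems are the final theorems of the development `Pool.Agent.W463.H10` of the starting files, which has not been
handed in.
-/

set_option autoImplicit false

namespace Pool.Agent.Results.MP_28f2cb_lc.FixedNumberOfVariables

open Pool.Agent.NPC Pool.Agent.W463.H10

/-- The problem whether a polynomial with integer coefficients (given by the list of its terms, coefficients in
binary) has a rational zero is `NP`-hard for the polynomials of degree at most `32` in `5` variables and for the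
polynomials of degree at most `4` in `9` variables. -/
theorem result : ∀ d n : ℕ, ((d = 32 ∧ n = 5) ∨ (d = 4 ∧ n = 9)) →
    NPHardP (fun p : List (ℤ × List ℕ) => Bd d n p ∧ RatZero p) := by
  rintro d n (⟨rfl, rfl⟩ | ⟨rfl, rfl⟩)
  · exact hard_five
  · exact hard_nine

end Pool.Agent.Results.MP_28f2cb_lc.FixedNumberOfVariables
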