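import Pool.Agent.H528R2.Final

/-!
# The existential theory of `ℚ` is `NEXP`-hard, already for one equation of degree at most four

If `ℤ` were existentially definable in `ℚ`, the existential theory of `ℚ` would be undecidable.  Unconditionally no
lower bound for its complexity beyond `NP` seems to be known.  We show that every language in nondeterministic
exponential time reduces in polynomial time to the solvability over `ℚ` of one polynomial equation of degree at most
four with integer coefficients.

The theorem is the final theorem of the development `Pool.Agent.H528R2` of the starting files, which has not been
handed in.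
-/

namespace Pool.Agent.Results.MP_28f2cb_lc.NexpHardQuartics

open Pool.Agent.H528R2 Pool.Agent.NPC Pool.Agent.NPC.H573Q Pool.Agent.NPC.ER Pool.Agent.NPC.H612

/-- For every language `L` in `NEXP` there is a polynomial-time computable map `w ↦ t(w)` from bit strings to
polynomial expressions of degree at most four (in variables `x₀, x₁, …`, with integer coefficients) such that
`w ∈ L` if and only if the equation `t(w) = 0` has a solution in rational numbers. -/
theorem result {L : Set (List Bool)} (hL : InNEXP L) :
    ∃ t : List Bool → ER.Tm, (∀ w, tdeg (t w) ≤ 4) ∧
      PolyTime (fun w => bits (QFm.eq (t w) .zero)) ∧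
        ∀ w, w ∈ L ↔ ∃ x : ℕ → ℚ, evalQ x (t w) = 0 :=
  quartic_hard hL

end Pool.Agent.Results.MP_28f2cb_lc.NexpHardQuartics
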