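import Pool.Agent.TH588.UQ.Main

/-!
# One universal quantifier in front of an existential formula over `ℚ` is undecidable

`ℤ` is definable in `ℚ` by a universal formula (Koenigsmann), but Hilbert's tenth problem over `ℚ` and the
existential definability of `ℤ` are open.  We show that one universal quantifier is enough for undecidability: there
is one polynomial `F(c, t, x₁, …, x_n)` of degree at most four with integer coefficients such that every recursively
enumerable set `P` of natural numbers reduces to the question whether `∀ t ∈ ℚ ∃ x ∈ ℚⁿ F(c, t, x) = 0` fails.  In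
geometric terms: there is no algorithm which decides for the members of a family of morphisms `X → 𝔸¹` of affine
varieties over `ℚ` whether they are surjective on rational points, or whether they miss a dense set of values.

The theorem is the final theorem of the development `Pool.Agent.TH588.UQ` of the starting files, which has not been
handed in.
-/

set_option autoImplicit false

namespace Pool.Agent.Results.MP_28f2cb_lc.OneUniversalQuantifier

/-- There are `n` and a polynomial `F(c, t, x₁, …, x_n)` of total degree at most four with integer coefficients such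
that for every recursively enumerable set `P` of natural numbers there is a computable function `g` with the
following properties, for all natural numbers `a`: if `a ∉ P`, then for every rational `t` the equation
`F(g(a), t, x) = 0` has a rational solution `x`; if `a ∈ P`, then there is a square-free natural number `t` for which
it has none, and the rational numbers `t` for which it has no rational solution are dense in `ℝ`.  Consequently the
set of the natural numbers `c` such that `∀ t ∈ ℚ ∃ x ∈ ℚⁿ F(c, t, x) = 0` is not computable. -/
theorem result : ∃ (n : ℕ) (F : MvPolynomial (Fin 2 ⊕ Fin n) ℤ), F.totalDegree ≤ 4 ∧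
    (∀ P : ℕ → Prop, REPred P → ∃ g : ℕ → ℕ, Computable g ∧ ∀ a : ℕ,
      (¬ P a → ∀ t : ℚ, ∃ x : Fin n → ℚ,
        MvPolynomial.aeval (Sum.elim ![(g a : ℚ), t] x) F = 0) ∧
      (P a → (∃ t : ℕ, Squarefree t ∧ ∀ x : Fin n → ℚ,
          MvPolynomial.aeval (Sum.elim ![(g a : ℚ), (t : ℚ)] x) F ≠ 0) ∧
        ∀ u v : ℚ, u < v → ∃ t : ℚ, u < t ∧ t < v ∧ ∀ x : Fin n → ℚ,
          MvPolynomial.aeval (Sum.elim ![(g a : ℚ), t] x) F ≠ 0)) ∧
    ¬ ComputablePred (fun c : ℕ => ∀ t : ℚ, ∃ x : Fin n → ℚ,
      MvPolynomial.aeval (Sum.elim ![(c : ℚ), t] x) F = 0) := by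
  obtain ⟨n, F, hF, h⟩ := Pool.Agent.TH588.UQ.main
  refine ⟨n, F, hF, h, fun hc => ?_⟩
  -- the halting problem
  have hre : REPred (fun a : ℕ => ((Denumerable.ofNat Nat.Partrec.Code a).eval 0).Dom) := by
    have h1 : REPred (fun c : Nat.Partrec.Code => (c.eval 0).Dom) :=
      ComputablePred.halting_problem_re 0
    have h2 : Partrec fun a : ℕ =>
        Part.assert ((Denumerable.ofNat Nat.Partrec.Code a).eval 0).Dom fun _ => Part.some () :=
      Partrec.comp h1 (Computable.ofNat Nat.Partrec.Code)
    exact h2
  obtain ⟨g, hg, hga⟩ := h _ hre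
  have h5 : ∀ a : ℕ, (¬ ((Denumerable.ofNat Nat.Partrec.Code a).eval 0).Dom) ↔
      ∀ t : ℚ, ∃ x : Fin n → ℚ, MvPolynomial.aeval (Sum.elim ![((g a : ℕ) : ℚ), t] x) F = 0 := by
    intro a
    constructor
    · exact fun ha => (hga a).1 ha
    · intro ha hP
      obtain ⟨⟨t, -, ht⟩, -⟩ := (hga a).2 hP
      obtain ⟨x, hx⟩ := ha t
      exact ht x hx
  have h6 : ComputablePred (fun c : Nat.Partrec.Code => ¬ (c.eval 0).Dom) := by
    obtain ⟨f, hf, hfe⟩ := ComputablePred.computable_iff.1 hc
    refine ComputablePred.computable_iff.2 ⟨fun c => f (g (Encodable.encode c)),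
      (hf.comp hg).comp Computable.encode, ?_⟩
    funext c
    have h7 := congrFun hfe (g (Encodable.encode c))
    have h8 := h5 (Encodable.encode c)
    rw [Denumerable.ofNat_encode] at h8
    exact propext (h8.trans (iff_of_eq h7))
  exact ComputablePred.halting_problem 0 (h6.not.of_eq fun c => not_not)

end Pool.Agent.Results.MP_28f2cb_lc.OneUniversalQuantifier
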